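import Mathlib

/-!
# Integers equal to their number of proper-divisor subset sums

`492 = 2 ^ 2 * 3 * 41` is the number of distinct positive integers that are sums of distinct proper
divisors of `492`, but `492` is not perfect.
-/

set_option autoImplicit false

namespace Pool.Agent.Results.MP_9bce75_nt.NotPerfect492

/-- The set of the integers `∑_{d ∈ S} d`, where `S` ranges over the non-empty sets of proper
divisors of `n`. -/
def sums (n : ℕ) : Set ℕ := {s | ∃ S : Finset ℕ, S ⊆ n.properDivisors ∧ S.Nonempty ∧ ∑ d ∈ S, d = s}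

/-- `a n` is the number of distinct sums of non-empty sets of proper divisors of `n`. -/
noncomputable def a (n : ℕ) : ℕ := (sums n).ncard

theorem pd492 : (492 : ℕ).properDivisors = {1, 2, 3, 4, 6, 12} ∪ {41, 82, 123, 164, 246} := by
  decide +kernel

/-- The sums of subsets of the divisors of `12` are `0, …, 28`. -/
theorem sumsA : (({1, 2, 3, 4, 6, 12} : Finset ℕ).powerset.image (fun S => ∑ d ∈ S, d)) =
    Finset.range 29 := by
  decide +kernel

/-- The sums of subsets of `41, 82, 123, 164, 246` are `41 b` for `0 ≤ b ≤ 16`. -/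
theorem sumsB : (({41, 82, 123, 164, 246} : Finset ℕ).powerset.image (fun S => ∑ d ∈ S, d)) =
    (Finset.range 17).image (fun b => 41 * b) := by
  decide +kernel

theorem disjAB : Disjoint ({1, 2, 3, 4, 6, 12} : Finset ℕ) {41, 82, 123, 164, 246} := by
  decide

theorem sums492 : sums 492 =
    (((Finset.range 29 ×ˢ Finset.range 17).image (fun x => x.1 + 41 * x.2)).erase 0 : Finset ℕ) := by
  ext s
  simp only [sums, Set.mem_ofPred_eq, Finset.coe_erase, Finset.coe_image, Set.mem_sdiff,
    Set.mem_image, Finset.mem_coe, Finset.mem_product, Finset.mem_range, Prod.exists,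
    Set.mem_singleton_iff]
  constructor
  · rintro ⟨S, hS, hne, rfl⟩
    rw [pd492] at hS
    have h1 : ∑ d ∈ S ∩ {1, 2, 3, 4, 6, 12}, d ∈ Finset.range 29 := by
      rw [← sumsA]
      exact Finset.mem_image_of_mem _ (Finset.mem_powerset.2 Finset.inter_subset_right)
    have h2 : ∑ d ∈ S ∩ {41, 82, 123, 164, 246}, d ∈ (Finset.range 17).image (fun b => 41 * b) := by
      rw [← sumsB]
      exact Finset.mem_image_of_mem _ (Finset.mem_powerset.2 Finset.inter_subset_right)
    obtain ⟨b, hb, hb'⟩ := Finset.mem_image.1 h2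
    have h3 : ∑ d ∈ S, d = ∑ d ∈ S ∩ {1, 2, 3, 4, 6, 12}, d +
        ∑ d ∈ S ∩ {41, 82, 123, 164, 246}, d := by
      rw [← Finset.sum_union (disjAB.mono Finset.inter_subset_right Finset.inter_subset_right),
        ← Finset.inter_union_distrib_left, Finset.inter_eq_left.2 hS]
    refine ⟨⟨_, b, ⟨Finset.mem_range.1 h1, Finset.mem_range.1 hb⟩, ?_⟩, ?_⟩
    · show _ + 41 * b = _
      rw [h3, ← hb']
    · obtain ⟨x, hx⟩ := hne
      have hx0 : 0 < x := by
        have := hS hx
        rw [← pd492] at this
        exact Nat.pos_of_mem_properDivisors this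
      have := Finset.single_le_sum (f := fun d : ℕ => d) (fun _ _ => Nat.zero_le _) hx
      omega
  · rintro ⟨⟨x, b, ⟨hx, hb⟩, rfl⟩, hne⟩
    have h1 : x ∈ Finset.range 29 := Finset.mem_range.2 hx
    rw [← sumsA] at h1
    obtain ⟨A, hA, hA'⟩ := Finset.mem_image.1 h1
    have h2 : 41 * b ∈ (Finset.range 17).image (fun b => 41 * b) :=
      Finset.mem_image_of_mem _ (Finset.mem_range.2 hb)
    rw [← sumsB] at h2
    obtain ⟨B, hB, hB'⟩ := Finset.mem_image.1 h2
    have hA1 := Finset.mem_powerset.1 hA
    have hB1 := Finset.mem_powerset.1 hB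
    have hsum : ∑ d ∈ A ∪ B, d = x + 41 * b := by
      rw [Finset.sum_union (disjAB.mono hA1 hB1)]
      exact congrArg₂ _ hA' hB'
    refine ⟨A ∪ B, ?_, ?_, hsum⟩
    · rw [pd492]
      exact Finset.union_subset_union hA1 hB1
    · rw [Finset.nonempty_iff_ne_empty]
      intro h
      rw [h, Finset.sum_empty] at hsum
      exact hne hsum.symm

theorem a492 : a 492 = 492 := by
  unfold a
  rw [sums492, Set.ncard_coe_finset, Finset.card_erase_of_mem, Finset.card_image_of_injOn]
  · simp
  · rintro ⟨x, b⟩ hx ⟨y, c⟩ hy h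
    simp only [Finset.coe_product, Finset.coe_range, Set.mem_prod, Set.mem_Iio] at hx hy
    simp only at h
    ext <;> simp only <;> omega
  · exact Finset.mem_image.2 ⟨(0, 0), by simp, by simp⟩

/-- It is not true that every positive integer `n` with `a(n) = n` is an even perfect number:
`a(492) = 492`, and the proper divisors of `492` sum to `684`. -/
theorem result :
    (¬ ∀ n : ℕ, 0 < n → a n = n → Even n ∧ n.Perfect) ∧
    a 492 = 492 ∧ ∑ d ∈ (492 : ℕ).properDivisors, d = 684 := by
  have h684 : ∑ d ∈ (492 : ℕ).properDivisors, d = 684 := by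
    rw [pd492]; decide
  refine ⟨fun h => ?_, a492, h684⟩
  have h1 := (h 492 (by norm_num) a492).2.1
  rw [h684] at h1
  omega

end Pool.Agent.Results.MP_9bce75_nt.NotPerfect492
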